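import Mathlib

/-!
# Project EK, E4c: a cut-off function with two bounded derivatives
-/

set_option autoImplicit false

open Set
open scoped Real

namespace Pool.Agent.Helper56.EK

theorem bounded_of_zero_outside {f : ℝ → ℝ} (hf : Continuous f)
    (h0 : ∀ t, t < 0 → f t = 0) (h1 : ∀ t, 1 < t → f t = 0) : ∃ M : ℝ, ∀ t, |f t| ≤ M := by
  obtain ⟨M, hM⟩ := (isCompact_Icc (a := (0:ℝ)) (b := 1)).exists_bound_of_continuousOn
    hf.continuousOn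
  refine ⟨M, fun t => ?_⟩
  have hM0 : 0 ≤ M := (norm_nonneg _).trans (hM 0 ⟨le_refl _, zero_le_one⟩)
  rcases lt_or_ge t 0 with h | h
  · rw [h0 t h, abs_zero]; exact hM0
  rcases lt_or_ge 1 t with h' | h'
  · rw [h1 t h', abs_zero]; exact hM0
  · have := hM t ⟨h, h'⟩
    rwa [Real.norm_eq_abs] at this

theorem deriv_zero_left {f : ℝ → ℝ} {c : ℝ} (h0 : ∀ t, t < 0 → f t = c) :
    ∀ t, t < 0 → deriv f t = 0 := by
  intro t ht
  have h : f =ᶠ[nhds t] fun _ => c := by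
    filter_upwards [Iio_mem_nhds ht] with s hs using h0 s hs
  rw [h.deriv_eq, deriv_const]

theorem deriv_zero_right {f : ℝ → ℝ} {c : ℝ} (h1 : ∀ t, 1 < t → f t = c) :
    ∀ t, 1 < t → deriv f t = 0 := by
  intro t ht
  have h : f =ᶠ[nhds t] fun _ => c := by
    filter_upwards [Ioi_mem_nhds ht] with s hs using h1 s hs
  rw [h.deriv_eq, deriv_const]

/-- A smooth step with bounded first and second derivative. -/
theorem step : ∃ (f f₁ f₂ : ℝ → ℝ) (M : ℝ), (∀ t, HasDerivAt f (f₁ t) t) ∧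
    (∀ t, HasDerivAt f₁ (f₂ t) t) ∧ Continuous f₂ ∧ (∀ t, 0 ≤ f t ∧ f t ≤ 1) ∧ f 0 = 0 ∧
    f₁ 0 = 0 ∧ (∀ t, 1 ≤ t → f t = 1) ∧ (∀ t, |f₁ t| ≤ M) ∧ (∀ t, |f₂ t| ≤ M) := by
  have hs : ContDiff ℝ 2 Real.smoothTransition := Real.smoothTransition.contDiff
  have hd0 : Differentiable ℝ Real.smoothTransition := hs.differentiable (by norm_num)
  have h1 : ContDiff ℝ 1 (deriv Real.smoothTransition) := by
    have : ContDiff ℝ (1 + 1) Real.smoothTransition := by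
      refine hs.of_le ?_
      norm_num
    exact (contDiff_succ_iff_deriv.1 this).2.2
  have hd1 : Differentiable ℝ (deriv Real.smoothTransition) := h1.differentiable (by norm_num)
  have h2 : Continuous (deriv (deriv Real.smoothTransition)) := h1.continuous_deriv (by norm_num)
  have z0 : ∀ t : ℝ, t < 0 → Real.smoothTransition t = 0 := fun t ht =>
    Real.smoothTransition.zero_of_nonpos ht.le
  have z1 : ∀ t : ℝ, 1 < t → Real.smoothTransition t = 1 := fun t ht =>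
    Real.smoothTransition.one_of_one_le ht.le
  have a0 := deriv_zero_left z0
  have a1 := deriv_zero_right z1
  obtain ⟨M₁, hM₁⟩ := bounded_of_zero_outside h1.continuous a0 a1
  obtain ⟨M₂, hM₂⟩ := bounded_of_zero_outside h2 (deriv_zero_left a0) (deriv_zero_right a1)
  refine ⟨Real.smoothTransition, deriv Real.smoothTransition,
    deriv (deriv Real.smoothTransition), max M₁ M₂, fun t => (hd0 t).hasDerivAt,
    fun t => (hd1 t).hasDerivAt, h2, fun t => ⟨Real.smoothTransition.nonneg t,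
    Real.smoothTransition.le_one t⟩, Real.smoothTransition.zero, ?_,
    fun t ht => Real.smoothTransition.one_of_one_le ht,
    fun t => (hM₁ t).trans (le_max_left _ _), fun t => (hM₂ t).trans (le_max_right _ _)⟩
  have : IsLocalMin Real.smoothTransition 0 := by
    refine Filter.Eventually.of_forall fun t => ?_
    rw [Real.smoothTransition.zero]
    exact Real.smoothTransition.nonneg t
  exact this.deriv_eq_zero

theorem cutoff : ∃ C : ℝ, ∀ x₁ x₂ l : ℝ, 1 ≤ l → x₁ + l ≤ x₂ - l →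
    ∃ χ χ₁ χ₂ : ℝ → ℝ, (∀ ξ, HasDerivAt χ (χ₁ ξ) ξ) ∧ (∀ ξ, HasDerivAt χ₁ (χ₂ ξ) ξ) ∧
      Continuous χ₂ ∧ χ x₁ = 0 ∧ χ x₂ = 0 ∧ χ₁ x₁ = 0 ∧ χ₁ x₂ = 0 ∧
      (∀ ξ, 0 ≤ χ ξ ∧ χ ξ ≤ 1) ∧ (∀ ξ ∈ Icc (x₁ + l) (x₂ - l), χ ξ = 1) ∧
      (∀ ξ, |χ₁ ξ| ≤ C / l) ∧ (∀ ξ, |χ₂ ξ| ≤ C / l) := by
  obtain ⟨f, f₁, f₂, M, hf, hf₁, hc, h01, h0, h10, h1, b1, b2⟩ := step
  have hM0 : 0 ≤ M := (abs_nonneg _).trans (b1 0)
  refine ⟨2 * M + 2 * M ^ 2 + 2 * M, fun x₁ x₂ l hl hx => ?_⟩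
  have hl0 : 0 < l := lt_of_lt_of_le one_pos hl
  have hu : ∀ ξ : ℝ, HasDerivAt (fun ξ : ℝ => (ξ - x₁) / l) (1 / l) ξ := fun ξ =>
    ((hasDerivAt_id ξ).sub_const x₁).div_const l
  have hv : ∀ ξ : ℝ, HasDerivAt (fun ξ : ℝ => (x₂ - ξ) / l) (-1 / l) ξ := fun ξ =>
    ((hasDerivAt_id ξ).const_sub x₂).div_const l
  have hu0 : ∀ ξ : ℝ, HasDerivAt (fun ξ : ℝ => f ((ξ - x₁) / l)) (f₁ ((ξ - x₁) / l) * (1 / l)) ξ :=
    fun ξ => (hf _).comp ξ (hu ξ)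
  have hv0 : ∀ ξ : ℝ, HasDerivAt (fun ξ : ℝ => f ((x₂ - ξ) / l)) (f₁ ((x₂ - ξ) / l) * (-1 / l)) ξ :=
    fun ξ => (hf _).comp ξ (hv ξ)
  have hu1 : ∀ ξ : ℝ, HasDerivAt (fun ξ : ℝ => f₁ ((ξ - x₁) / l)) (f₂ ((ξ - x₁) / l) * (1 / l)) ξ :=
    fun ξ => (hf₁ _).comp ξ (hu ξ)
  have hv1 : ∀ ξ : ℝ, HasDerivAt (fun ξ : ℝ => f₁ ((x₂ - ξ) / l)) (f₂ ((x₂ - ξ) / l) * (-1 / l)) ξ :=
    fun ξ => (hf₁ _).comp ξ (hv ξ)
  have e1 : (x₁ - x₁) / l = 0 := by simp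
  have e2 : (x₂ - x₂) / l = 0 := by simp
  have habs : ∀ t, |f t| ≤ 1 := fun t => abs_le.2 ⟨by linarith [(h01 t).1], (h01 t).2⟩
  have hinv : 1 / l ≤ 1 := by rw [div_le_one hl0]; exact hl
  have hinv0 : 0 ≤ 1 / l := by positivity
  refine ⟨fun ξ => f ((ξ - x₁) / l) * f ((x₂ - ξ) / l),
    fun ξ => f₁ ((ξ - x₁) / l) * (1 / l) * f ((x₂ - ξ) / l)
      + f ((ξ - x₁) / l) * (f₁ ((x₂ - ξ) / l) * (-1 / l)),
    fun ξ => (f₂ ((ξ - x₁) / l) * (1 / l) * (1 / l) * f ((x₂ - ξ) / l)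
      + f₁ ((ξ - x₁) / l) * (1 / l) * (f₁ ((x₂ - ξ) / l) * (-1 / l)))
      + (f₁ ((ξ - x₁) / l) * (1 / l) * (f₁ ((x₂ - ξ) / l) * (-1 / l))
      + f ((ξ - x₁) / l) * (f₂ ((x₂ - ξ) / l) * (-1 / l) * (-1 / l))),
    fun ξ => (hu0 ξ).mul (hv0 ξ),
    fun ξ => (((hu1 ξ).mul_const _).mul (hv0 ξ)).add ((hu0 ξ).mul ((hv1 ξ).mul_const _)),
    ?_, ?_, ?_, ?_, ?_, ?_, ?_, ?_, ?_⟩
  · have hcf : Continuous f := continuous_iff_continuousAt.2 fun t => (hf t).continuousAt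
    have hcf1 : Continuous f₁ := continuous_iff_continuousAt.2 fun t => (hf₁ t).continuousAt
    have cu : Continuous fun ξ : ℝ => (ξ - x₁) / l := by fun_prop
    have cv : Continuous fun ξ : ℝ => (x₂ - ξ) / l := by fun_prop
    have k1 := hcf.comp cu
    have k2 := hcf.comp cv
    have k3 := hcf1.comp cu
    have k4 := hcf1.comp cv
    have k5 := hc.comp cu
    have k6 := hc.comp cv
    simp only [Function.comp_def] at k1 k2 k3 k4 k5 k6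
    fun_prop
  · simp [h0]
  · simp [h0]
  · simp [h0, h10]
  · simp [h0, h10]
  · intro ξ
    have a := h01 ((ξ - x₁) / l)
    have b := h01 ((x₂ - ξ) / l)
    exact ⟨mul_nonneg a.1 b.1, mul_le_one₀ a.2 b.1 b.2⟩
  · intro ξ hξ
    have a : f ((ξ - x₁) / l) = 1 := h1 _ (by rw [le_div_iff₀ hl0]; linarith [hξ.1])
    have b : f ((x₂ - ξ) / l) = 1 := h1 _ (by rw [le_div_iff₀ hl0]; linarith [hξ.2])
    show f ((ξ - x₁) / l) * f ((x₂ - ξ) / l) = 1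
    rw [a, b, one_mul]
  · intro ξ
    have t1 : |f₁ ((ξ - x₁) / l) * (1 / l) * f ((x₂ - ξ) / l)| ≤ M * (1 / l) * 1 := by
      rw [abs_mul, abs_mul, abs_of_nonneg hinv0]
      exact mul_le_mul (mul_le_mul_of_nonneg_right (b1 _) hinv0) (habs _) (abs_nonneg _)
        (mul_nonneg hM0 hinv0)
    have t2 : |f ((ξ - x₁) / l) * (f₁ ((x₂ - ξ) / l) * (-1 / l))| ≤ 1 * (M * (1 / l)) := by
      rw [abs_mul, abs_mul, neg_div, abs_neg, abs_of_nonneg hinv0]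
      exact mul_le_mul (habs _) (mul_le_mul_of_nonneg_right (b1 _) hinv0)
        (mul_nonneg (abs_nonneg _) hinv0) zero_le_one
    refine (abs_add_le _ _).trans ((add_le_add t1 t2).trans ?_)
    rw [show (2 * M + 2 * M ^ 2 + 2 * M) / l = (2 * M + 2 * M ^ 2 + 2 * M) * (1 / l) by ring]
    nlinarith [mul_nonneg hM0 hinv0, mul_nonneg (sq_nonneg M) hinv0]
  · intro ξ
    have hii : 1 / l * (1 / l) ≤ 1 / l := by nlinarith
    have t1 : |f₂ ((ξ - x₁) / l) * (1 / l) * (1 / l) * f ((x₂ - ξ) / l)| ≤ M * (1 / l) := by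
      rw [abs_mul, abs_mul, abs_mul, abs_of_nonneg hinv0, mul_assoc (|f₂ _|)]
      calc |f₂ ((ξ - x₁) / l)| * (1 / l * (1 / l)) * |f ((x₂ - ξ) / l)|
          ≤ (M * (1 / l)) * 1 := mul_le_mul (mul_le_mul (b2 _) hii (by positivity) hM0)
            (habs _) (abs_nonneg _) (mul_nonneg hM0 hinv0)
        _ = M * (1 / l) := mul_one _
    have t2 : |f₁ ((ξ - x₁) / l) * (1 / l) * (f₁ ((x₂ - ξ) / l) * (-1 / l))| ≤ M ^ 2 * (1 / l) := by
      rw [abs_mul, abs_mul, abs_mul, neg_div, abs_neg, abs_of_nonneg hinv0]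
      calc |f₁ ((ξ - x₁) / l)| * (1 / l) * (|f₁ ((x₂ - ξ) / l)| * (1 / l))
          = (|f₁ ((ξ - x₁) / l)| * |f₁ ((x₂ - ξ) / l)|) * (1 / l * (1 / l)) := by ring
        _ ≤ (M * M) * (1 / l) := mul_le_mul (mul_le_mul (b1 _) (b1 _) (abs_nonneg _) hM0) hii
            (by positivity) (mul_nonneg hM0 hM0)
        _ = M ^ 2 * (1 / l) := by ring
    have t3 : |f ((ξ - x₁) / l) * (f₂ ((x₂ - ξ) / l) * (-1 / l) * (-1 / l))| ≤ M * (1 / l) := by
      rw [abs_mul, abs_mul, abs_mul, neg_div, abs_neg, abs_of_nonneg hinv0,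
        mul_assoc (|f₂ _|)]
      calc |f ((ξ - x₁) / l)| * (|f₂ ((x₂ - ξ) / l)| * (1 / l * (1 / l)))
          ≤ 1 * (M * (1 / l)) := mul_le_mul (habs _) (mul_le_mul (b2 _) hii (by positivity) hM0)
            (by positivity) zero_le_one
        _ = M * (1 / l) := one_mul _
    refine (abs_add_le _ _).trans ((add_le_add ((abs_add_le _ _).trans (add_le_add t1 t2))
      ((abs_add_le _ _).trans (add_le_add t2 t3))).trans ?_)
    rw [show (2 * M + 2 * M ^ 2 + 2 * M) / l = (2 * M + 2 * M ^ 2 + 2 * M) * (1 / l) by ring]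
    nlinarith [mul_nonneg hM0 hinv0, mul_nonneg (sq_nonneg M) hinv0]

end Pool.Agent.Helper56.EK
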